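import Pool.Agent.H62.DL.FQ

/-!
# (DG) holomorphy and growth of numerator and denominator
-/

set_option autoImplicit false

open Complex MeasureTheory Set

namespace Pool.Agent.H62.DL

open Pool.Agent.H25.DL

lemma wl_diff (r τ : ℝ) (s : ℂ) : DifferentiableAt ℂ (wl r τ) s := by
  unfold wl
  fun_prop

/-- polynomial growth in vertical strips above height `t₀` -/
def Gr (t₀ : ℝ) (u : ℂ → ℂ) : Prop :=
  ∀ b : ℝ, ∃ C : ℝ, 0 < C ∧ ∀ s : ℂ, |s.re| ≤ b → t₀ ≤ s.im → ‖u s‖ ≤ C * s.im ^ C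

lemma Gr.one {t₀ : ℝ} (h : 1 ≤ t₀) : Gr t₀ (fun _ => 1) := by
  intro b
  refine ⟨1, one_pos, fun s _ hs => ?_⟩
  rw [norm_one, one_mul, Real.rpow_one]
  linarith

lemma Gr.mul {t₀ : ℝ} (h : 1 ≤ t₀) {u v : ℂ → ℂ} (hu : Gr t₀ u) (hv : Gr t₀ v) :
    Gr t₀ (fun s => u s * v s) := by
  intro b
  obtain ⟨C1, h1, h1'⟩ := hu b
  obtain ⟨C2, h2, h2'⟩ := hv b
  refine ⟨C1 * C2 + C1 + C2, by positivity, fun s hb hs => ?_⟩
  have hs1 : (1 : ℝ) ≤ s.im := le_trans h hs
  have hs0 : (0 : ℝ) < s.im := by linarith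
  rw [norm_mul]
  calc ‖u s‖ * ‖v s‖ ≤ (C1 * s.im ^ C1) * (C2 * s.im ^ C2) :=
        mul_le_mul (h1' s hb hs) (h2' s hb hs) (norm_nonneg _) (by positivity)
    _ = (C1 * C2) * s.im ^ (C1 + C2) := by
        rw [Real.rpow_add hs0]
        ring
    _ ≤ (C1 * C2 + C1 + C2) * s.im ^ (C1 * C2 + C1 + C2) := by
        apply mul_le_mul
        · nlinarith
        · apply Real.rpow_le_rpow_of_exponent_le hs1
          nlinarith [mul_pos h1 h2]
        · positivity
        · positivity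

lemma Gr.prod {t₀ : ℝ} (h : 1 ≤ t₀) {ι : Type} (S : Finset ι) {u : ι → ℂ → ℂ}
    (hu : ∀ i, Gr t₀ (u i)) : Gr t₀ (fun s => ∏ i ∈ S, u i s) := by
  classical
  induction S using Finset.induction_on with
  | empty => simpa using Gr.one h
  | insert a S ha ih =>
    have : (fun s => ∏ i ∈ insert a S, u i s) = fun s => u a s * ∏ i ∈ S, u i s := by
      funext s
      rw [Finset.prod_insert ha]
    rw [this]
    exact (hu a).mul h ih

lemma gr_member (a : DLF) (t₀ : ℝ) (h : 1 ≤ t₀) (ht : ∀ t, t₀ ≤ t → 1 ≤ a.r * t + a.τ) :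
    Gr t₀ (fun s => a.L.num (wl a.r a.τ s)) ∧ Gr t₀ (fun s => a.L.den (wl a.r a.τ s)) := by
  have key : ∀ b : ℝ, ∃ C : ℝ, 0 < C ∧ ∀ s : ℂ, |s.re| ≤ b → t₀ ≤ s.im →
      ‖a.L.num (wl a.r a.τ s)‖ ≤ C * s.im ^ C ∧ ‖a.L.den (wl a.r a.τ s)‖ ≤ C * s.im ^ C := by
    intro b
    have hr := a.r_pos
    obtain ⟨C, hC, hC'⟩ := a.L.growth (1 / 2 + a.r * (|b| + 1 / 2))
    set D := a.r + |a.τ| with hD
    have hD0 : 0 < D := by positivity
    refine ⟨C * D ^ C + C, by positivity, fun s hb hs => ?_⟩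
    have hs1 : (1 : ℝ) ≤ s.im := le_trans h hs
    have hs0 : (0 : ℝ) < s.im := by linarith
    have him : (wl a.r a.τ s).im = a.r * s.im + a.τ := wl_im _ _ _
    have hre : (wl a.r a.τ s).re = 1 / 2 + a.r * (s.re - 1 / 2) := wl_re _ _ _
    have h1 : 1 ≤ (wl a.r a.τ s).im := by rw [him]; exact ht _ hs
    have h2 : |(wl a.r a.τ s).re| ≤ 1 / 2 + a.r * (|b| + 1 / 2) := by
      rw [hre]
      have hb' : |s.re| ≤ |b| := le_trans hb (le_abs_self b)
      have h3 := abs_le.1 hb'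
      rw [abs_le]
      constructor <;> nlinarith [abs_nonneg b]
    have h3 : (wl a.r a.τ s).im ≤ D * s.im := by
      rw [him, hD]
      nlinarith [le_abs_self a.τ, abs_nonneg a.τ]
    have h4 : C * (wl a.r a.τ s).im ^ C ≤ (C * D ^ C + C) * s.im ^ (C * D ^ C + C) := by
      calc C * (wl a.r a.τ s).im ^ C ≤ C * (D * s.im) ^ C := by
            apply mul_le_mul_of_nonneg_left _ hC.le
            exact Real.rpow_le_rpow (by linarith) h3 hC.le
        _ = C * D ^ C * s.im ^ C := by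
            rw [Real.mul_rpow hD0.le hs0.le]
            ring
        _ ≤ (C * D ^ C + C) * s.im ^ (C * D ^ C + C) := by
            apply mul_le_mul
            · linarith
            · apply Real.rpow_le_rpow_of_exponent_le hs1
              have : 0 ≤ C * D ^ C := by positivity
              linarith
            · positivity
            · positivity
    exact ⟨le_trans (hC' _ h2 h1).1 h4, le_trans (hC' _ h2 h1).2 h4⟩
  constructor
  · intro b
    obtain ⟨C, hC, h'⟩ := key b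
    exact ⟨C, hC, fun s h1 h2 => (h' s h1 h2).1⟩
  · intro b
    obtain ⟨C, hC, h'⟩ := key b
    exact ⟨C, hC, fun s h1 h2 => (h' s h1 h2).2⟩

theorem dg : T_DG := by
  intro F
  obtain ⟨t₀, h1, ht₀⟩ := exists_t0 F
  refine ⟨t₀, h1, fun s hs => ?_, fun b => ?_⟩
  · have hp : ∀ i, 0 < (wl (F.p i).r (F.p i).τ s).im := by
      intro i
      rw [wl_im]
      linarith [(ht₀ s.im hs).1 i]
    have hq : ∀ j, 0 < (wl (F.q j).r (F.q j).τ s).im := by
      intro j
      rw [wl_im]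
      linarith [(ht₀ s.im hs).2 j]
    have d1 : ∀ i, DifferentiableAt ℂ (fun s => (F.p i).L.num (wl (F.p i).r (F.p i).τ s)) s :=
      fun i => ((F.p i).L.diff _ (hp i)).1.comp s (wl_diff _ _ _)
    have d2 : ∀ i, DifferentiableAt ℂ (fun s => (F.p i).L.den (wl (F.p i).r (F.p i).τ s)) s :=
      fun i => ((F.p i).L.diff _ (hp i)).2.comp s (wl_diff _ _ _)
    have d3 : ∀ j, DifferentiableAt ℂ (fun s => (F.q j).L.num (wl (F.q j).r (F.q j).τ s)) s :=
      fun j => ((F.q j).L.diff _ (hq j)).1.comp s (wl_diff _ _ _)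
    have d4 : ∀ j, DifferentiableAt ℂ (fun s => (F.q j).L.den (wl (F.q j).r (F.q j).τ s)) s :=
      fun j => ((F.q j).L.diff _ (hq j)).2.comp s (wl_diff _ _ _)
    constructor
    · unfold Fam.N
      exact (DifferentiableAt.fun_finsetProd fun i _ => d1 i).mul
        (DifferentiableAt.fun_finsetProd fun j _ => d4 j)
    · unfold Fam.M
      exact (DifferentiableAt.fun_finsetProd fun i _ => d2 i).mul
        (DifferentiableAt.fun_finsetProd fun j _ => d3 j)
  · have g1 : ∀ i, Gr t₀ (fun s => (F.p i).L.num (wl (F.p i).r (F.p i).τ s)) ∧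
        Gr t₀ (fun s => (F.p i).L.den (wl (F.p i).r (F.p i).τ s)) :=
      fun i => gr_member _ _ h1 fun t ht => (ht₀ t ht).1 i
    have g2 : ∀ j, Gr t₀ (fun s => (F.q j).L.num (wl (F.q j).r (F.q j).τ s)) ∧
        Gr t₀ (fun s => (F.q j).L.den (wl (F.q j).r (F.q j).τ s)) :=
      fun j => gr_member _ _ h1 fun t ht => (ht₀ t ht).2 j
    have gN : Gr t₀ F.N := (Gr.prod h1 Finset.univ fun i => (g1 i).1).mul h1
      (Gr.prod h1 Finset.univ fun j => (g2 j).2)
    have gM : Gr t₀ F.M := (Gr.prod h1 Finset.univ fun i => (g1 i).2).mul h1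
      (Gr.prod h1 Finset.univ fun j => (g2 j).1)
    obtain ⟨C1, hC1, h3⟩ := gN b
    obtain ⟨C2, hC2, h4⟩ := gM b
    have aux : ∀ C D x : ℝ, 0 < C → 0 < D → 1 ≤ x → C * x ^ C ≤ (C + D) * x ^ (C + D) := by
      intro C D x hC hD hx
      apply mul_le_mul
      · linarith
      · exact Real.rpow_le_rpow_of_exponent_le hx (by linarith)
      · positivity
      · positivity
    refine ⟨C1 + C2, by positivity, fun s hb hs => ⟨?_, ?_⟩⟩
    · exact le_trans (h3 s hb hs) (aux C1 C2 s.im hC1 hC2 (le_trans h1 hs))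
    · have := aux C2 C1 s.im hC2 hC1 (le_trans h1 hs)
      rw [add_comm C2 C1] at this
      exact le_trans (h4 s hb hs) this

end Pool.Agent.H62.DL
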