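import Pool.Agent.H62.DL.FQ

/-!
# (EU), (LB) the quotient as a product of Dirichlet series
-/

set_option autoImplicit false

open Complex MeasureTheory Set

namespace Pool.Agent.H62.DL

open Pool.Agent.H25.DL

lemma ser_eq (c : ℕ → ℂ) (h0 : c 0 = 0) (w : ℂ) :
    ∑' m : ℕ, c m * (m : ℂ) ^ (-w) = LSeries c w := by
  unfold LSeries
  exact tsum_congr fun m => (LSeries.term_def₀ h0 w m).symm

lemma ser_summable (c : ℕ → ℂ) (h1 : ∀ n, ‖c n‖ ≤ 1) (w : ℂ) (hw : 1 < w.re) :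
    LSeriesSummable c w :=
  LSeriesSummable_of_le_const_mul_rpow hw ⟨1, fun n _ => by simpa using h1 n⟩

lemma conv_eq (h : ℕ → ℂ) (h0 : h 0 = 0) (h1 : h 1 = 1) (hm : ∀ a b, h (a * b) = h a * h b) :
    LSeries.convolution h (fun m => ((ArithmeticFunction.moebius m : ℤ) : ℂ) * h m) =
      LSeries.delta := by
  rw [LSeries.convolution_def]
  funext n
  have e1 : ∀ p ∈ n.divisorsAntidiagonal,
      h p.1 * (((ArithmeticFunction.moebius p.2 : ℤ) : ℂ) * h p.2) =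
        h n * ((ArithmeticFunction.moebius p.2 : ℤ) : ℂ) := by
    intro p hp
    have := (Nat.mem_divisorsAntidiagonal.1 hp).1
    rw [← this, hm]
    ring
  rw [Finset.sum_congr rfl e1, ← Finset.mul_sum]
  have e2 : ∑ p ∈ n.divisorsAntidiagonal, ((ArithmeticFunction.moebius p.2 : ℤ) : ℂ) =
      ((1 : ArithmeticFunction ℤ) n : ℂ) := by
    rw [← ArithmeticFunction.coe_zeta_mul_moebius, ArithmeticFunction.mul_apply]
    push_cast
    refine Finset.sum_congr rfl fun p hp => ?_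
    have h3 : p.1 ≠ 0 := by
      have := Nat.mem_divisorsAntidiagonal.1 hp
      intro h4
      apply this.2
      rw [← this.1, h4, zero_mul]
    simp [ArithmeticFunction.natCoe_apply, ArithmeticFunction.zeta_apply, h3]
  rw [e2, LSeries.delta]
  by_cases hn : n = 1
  · subst hn
    simp [h1]
  · rw [ArithmeticFunction.one_apply, if_neg hn, if_neg hn]
    simp

/-- the inverse of a completely multiplicative Dirichlet series -/
lemma ser_inv (h : ℕ → ℂ) (h0 : h 0 = 0) (h1 : h 1 = 1) (hm : ∀ a b, h (a * b) = h a * h b)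
    (hle : ∀ n, ‖h n‖ ≤ 1) (w : ℂ) (hw : 1 < w.re) :
    (∑' m : ℕ, h m * (m : ℂ) ^ (-w)) *
      (∑' m : ℕ, (((ArithmeticFunction.moebius m : ℤ) : ℂ) * h m) * (m : ℂ) ^ (-w)) = 1 := by
  have hle' : ∀ n, ‖((ArithmeticFunction.moebius n : ℤ) : ℂ) * h n‖ ≤ 1 := by
    intro n
    rw [norm_mul]
    have h1 := moebius_norm_le n
    have h2 := hle n
    nlinarith [norm_nonneg (h n), norm_nonneg (((ArithmeticFunction.moebius n : ℤ) : ℂ))]
  rw [ser_eq h h0 w, ser_eq (fun m => ((ArithmeticFunction.moebius m : ℤ) : ℂ) * h m)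
    (by simp) w, ← LSeries_convolution' (ser_summable h hle w hw) (ser_summable _ hle' w hw),
    conv_eq h h0 h1 hm, LSeries_delta]
  rfl

lemma ev_re (r : ℝ) (hr : 0 < r) : ∀ᶠ b in Filter.atTop, (2 : ℝ) ≤ 1 / 2 + r * (b - 1 / 2) := by
  filter_upwards [Filter.eventually_ge_atTop (3 / (2 * r) + 1 / 2)] with b hb
  have : 3 / 2 ≤ r * (b - 1 / 2) := by
    have h1 : 3 / (2 * r) ≤ b - 1 / 2 := by linarith
    rw [div_le_iff₀ (by positivity)] at h1
    linarith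
  linarith

lemma exists_b0 (F : Fam) : ∃ b₀ : ℝ, ∀ b : ℝ, b₀ ≤ b →
    (∀ i, 2 ≤ 1 / 2 + (F.p i).r * (b - 1 / 2)) ∧ (∀ j, 2 ≤ 1 / 2 + (F.q j).r * (b - 1 / 2)) := by
  have h1 : ∀ᶠ b in Filter.atTop, ∀ i, 2 ≤ 1 / 2 + (F.p i).r * (b - 1 / 2) :=
    Filter.eventually_all.2 fun i => ev_re _ (F.p i).r_pos
  have h2 : ∀ᶠ b in Filter.atTop, ∀ j, 2 ≤ 1 / 2 + (F.q j).r * (b - 1 / 2) :=
    Filter.eventually_all.2 fun j => ev_re _ (F.q j).r_pos
  obtain ⟨b₀, hb₀⟩ := Filter.eventually_atTop.1 (h1.and h2)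
  exact ⟨b₀, fun t ht => hb₀ t ht⟩

lemma num_ne (L : LF) (w : ℂ) (h1 : 1 < w.re) (h2 : 0 < w.im) : L.num w ≠ 0 := by
  rw [L.series w h1 h2]
  refine mul_ne_zero (L.den_ne w h1 h2) (Finset.prod_ne_zero_iff.2 fun k _ => ?_)
  intro h3
  have := ser_inv (L.h k) (L.h_zero k) (L.h_one k) (L.h_mul k) (L.h_le k) w h1
  rw [h3, zero_mul] at this
  exact zero_ne_one this

theorem eu : T_EU := by
  intro F
  obtain ⟨t₀, -, ht₀⟩ := exists_t0 F
  obtain ⟨b₀, hb₀⟩ := exists_b0 F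
  refine ⟨max 1 b₀, t₀, by positivity, fun β hβ t ht => ?_⟩
  have hb := hb₀ (1 / 2 + β) (by linarith [le_max_right (1 : ℝ) b₀])
  have ht' := ht₀ t ht
  have re0 : (1 / 2 + β + t * I : ℂ).re = 1 / 2 + β := by simp
  have im0 : (1 / 2 + β + t * I : ℂ).im = t := by simp
  set s : ℂ := 1 / 2 + β + t * I with hs
  have pr : ∀ i, 1 < (wl (F.p i).r (F.p i).τ s).re := by
    intro i
    rw [wl_re, re0]
    linarith [hb.1 i]
  have pi' : ∀ i, 0 < (wl (F.p i).r (F.p i).τ s).im := by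
    intro i
    rw [wl_im, im0]
    linarith [ht'.1 i]
  have qr : ∀ j, 1 < (wl (F.q j).r (F.q j).τ s).re := by
    intro j
    rw [wl_re, re0]
    linarith [hb.2 j]
  have qi : ∀ j, 0 < (wl (F.q j).r (F.q j).τ s).im := by
    intro j
    rw [wl_im, im0]
    linarith [ht'.2 j]
  constructor
  · unfold Fam.M
    refine mul_ne_zero (Finset.prod_ne_zero_iff.2 fun i _ => ?_)
      (Finset.prod_ne_zero_iff.2 fun j _ => ?_)
    · exact (F.p i).L.den_ne _ (pr i) (pi' i)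
    · exact num_ne _ _ (qr j) (qi j)
  · unfold Fam.N Fam.M Pr
    rw [Fintype.prod_sum_type, Fintype.prod_sigma, Fintype.prod_sigma]
    have e1 : ∀ i, (F.p i).L.num (wl (F.p i).r (F.p i).τ s) =
        (F.p i).L.den (wl (F.p i).r (F.p i).τ s) *
          ∏ k, (F.f (Sum.inl ⟨i, k⟩)).D s := fun i => (F.p i).L.series _ (pr i) (pi' i)
    have e2 : ∀ j, (F.q j).L.num (wl (F.q j).r (F.q j).τ s) *
        (∏ k, (F.f (Sum.inr ⟨j, k⟩)).D s) = (F.q j).L.den (wl (F.q j).r (F.q j).τ s) := by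
      intro j
      rw [(F.q j).L.series _ (qr j) (qi j), mul_assoc, ← Finset.prod_mul_distrib]
      have : ∀ k, (∑' m : ℕ, (F.q j).L.h k m * (m : ℂ) ^ (-(wl (F.q j).r (F.q j).τ s))) *
          (F.f (Sum.inr ⟨j, k⟩)).D s = 1 := fun k =>
        ser_inv _ ((F.q j).L.h_zero k) ((F.q j).L.h_one k) ((F.q j).L.h_mul k)
          ((F.q j).L.h_le k) _ (qr j)
      rw [Finset.prod_congr rfl fun k _ => this k, Finset.prod_const_one, mul_one]
    have e3 : (∏ j, (F.q j).L.num (wl (F.q j).r (F.q j).τ s)) *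
        (∏ j, ∏ k, (F.f (Sum.inr ⟨j, k⟩)).D s) =
        ∏ j, (F.q j).L.den (wl (F.q j).r (F.q j).τ s) := by
      rw [← Finset.prod_mul_distrib]
      exact Finset.prod_congr rfl fun j _ => e2 j
    have e4 : ∏ i, (F.p i).L.num (wl (F.p i).r (F.p i).τ s) =
        (∏ i, (F.p i).L.den (wl (F.p i).r (F.p i).τ s)) *
        (∏ i, ∏ k, (F.f (Sum.inl ⟨i, k⟩)).D s) := by
      rw [← Finset.prod_mul_distrib]
      exact Finset.prod_congr rfl fun i _ => e1 i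
    rw [e4, ← e3]
    ring

/-- `∑_{m ≥ 1} m^{-2} ≤ 2` -/
lemma sum_sq_le : ∑' m : ℕ, ((m : ℝ) ^ 2)⁻¹ ≤ 2 := by
  have h := hasSum_zeta_two
  have h1 : ∑' m : ℕ, ((m : ℝ) ^ 2)⁻¹ = Real.pi ^ 2 / 6 := by
    rw [← h.tsum_eq]
    exact tsum_congr fun m => by rw [one_div]
  rw [h1]
  have := Real.pi_lt_d2
  have := Real.pi_pos
  nlinarith

lemma ser_norm_le (c : ℕ → ℂ) (h0 : c 0 = 0) (h1 : ∀ n, ‖c n‖ ≤ 1) (w : ℂ) (hw : 2 ≤ w.re) :
    ‖∑' m : ℕ, c m * (m : ℂ) ^ (-w)‖ ≤ 2 := by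
  have hs : Summable fun m : ℕ => ((m : ℝ) ^ 2)⁻¹ := by
    simpa using (Real.summable_nat_pow_inv (p := 2)).2 (by norm_num)
  have hle : ∀ m : ℕ, ‖c m * (m : ℂ) ^ (-w)‖ ≤ ((m : ℝ) ^ 2)⁻¹ := by
    intro m
    rcases Nat.eq_zero_or_pos m with rfl | hm
    · simp [h0]
    · rw [norm_mul, Complex.norm_natCast_cpow_of_pos hm]
      have hm1 : (1 : ℝ) ≤ m := by exact_mod_cast hm
      have h2 : (m : ℝ) ^ (-w).re ≤ ((m : ℝ) ^ 2)⁻¹ := by
        rw [← Real.rpow_natCast (m : ℝ) 2, ← Real.rpow_neg (by positivity)]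
        apply Real.rpow_le_rpow_of_exponent_le hm1
        simp only [neg_re]
        push_cast
        linarith
      calc ‖c m‖ * (m : ℝ) ^ (-w).re ≤ 1 * ((m : ℝ) ^ 2)⁻¹ := by
            apply mul_le_mul (h1 m) h2 (by positivity) zero_le_one
        _ = _ := one_mul _
  have hs' : Summable fun m : ℕ => ‖c m * (m : ℂ) ^ (-w)‖ :=
    Summable.of_nonneg_of_le (fun _ => norm_nonneg _) hle hs
  exact (norm_tsum_le_tsum_norm hs').trans ((hs'.tsum_le_tsum hle hs).trans sum_sq_le)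

lemma ser_ge (h : ℕ → ℂ) (h0 : h 0 = 0) (h1 : h 1 = 1) (hm : ∀ a b, h (a * b) = h a * h b)
    (hle : ∀ n, ‖h n‖ ≤ 1) (w : ℂ) (hw : 2 ≤ w.re) :
    1 / 2 ≤ ‖∑' m : ℕ, h m * (m : ℂ) ^ (-w)‖ := by
  have hle' : ∀ n, ‖((ArithmeticFunction.moebius n : ℤ) : ℂ) * h n‖ ≤ 1 := by
    intro n
    rw [norm_mul]
    have h1 := moebius_norm_le n
    have h2 := hle n
    nlinarith [norm_nonneg (h n), norm_nonneg (((ArithmeticFunction.moebius n : ℤ) : ℂ))]
  have h2 := ser_inv h h0 h1 hm hle w (by linarith)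
  have h3 := ser_norm_le (fun m => ((ArithmeticFunction.moebius m : ℤ) : ℂ) * h m) (by simp)
    hle' w hw
  have h4 := congrArg norm h2
  rw [norm_mul, norm_one] at h4
  nlinarith [norm_nonneg (∑' m : ℕ, h m * (m : ℂ) ^ (-w))]

/-- finite products of functions bounded below -/
lemma prod_lower {ι : Type} (S : Finset ι) (P : ℝ → ℝ → Prop) (u : ι → ℝ → ℝ → ℂ)
    (hu : ∀ i, ∃ c : ℝ, 0 < c ∧ ∀ b t, P b t → c ≤ ‖u i b t‖) :
    ∃ c : ℝ, 0 < c ∧ ∀ b t, P b t → c ≤ ‖∏ i ∈ S, u i b t‖ := by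
  classical
  induction S using Finset.induction_on with
  | empty => exact ⟨1, one_pos, fun b t _ => by simp⟩
  | insert a S ha ih =>
    obtain ⟨c1, h1, h1'⟩ := hu a
    obtain ⟨c2, h2, h2'⟩ := ih
    refine ⟨c1 * c2, by positivity, fun b t h => ?_⟩
    rw [Finset.prod_insert ha, norm_mul]
    exact mul_le_mul (h1' b t h) (h2' b t h) h2.le (norm_nonneg _)

theorem lb : T_LB := by
  intro F
  obtain ⟨t₀, -, ht₀⟩ := exists_t0 F
  obtain ⟨b₀, hb₀⟩ := exists_b0 F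
  set P : ℝ → ℝ → Prop := fun b t => b₀ ≤ b ∧ t₀ ≤ t with hP
  have re0 : ∀ b t : ℝ, (b + t * I : ℂ).re = b := fun b t => by simp
  have im0 : ∀ b t : ℝ, (b + t * I : ℂ).im = t := fun b t => by simp
  have H1 : ∀ i, ∃ c : ℝ, 0 < c ∧ ∀ b t, P b t →
      c ≤ ‖(F.p i).L.den (wl (F.p i).r (F.p i).τ (b + t * I))‖ := by
    intro i
    obtain ⟨c, hc, h⟩ := (F.p i).L.den_ge
    refine ⟨c, hc, fun b t hbt => h _ ?_ ?_⟩
    · rw [wl_re, re0]
      exact (hb₀ b hbt.1).1 i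
    · rw [wl_im, im0]
      exact (ht₀ t hbt.2).1 i
  have H2 : ∀ j, ∃ c : ℝ, 0 < c ∧ ∀ b t, P b t →
      c ≤ ‖(F.q j).L.num (wl (F.q j).r (F.q j).τ (b + t * I))‖ := by
    intro j
    obtain ⟨c, hc, h⟩ := (F.q j).L.den_ge
    refine ⟨c * (1 / 2) ^ (F.q j).L.n, by positivity, fun b t hbt => ?_⟩
    have hr : 2 ≤ (wl (F.q j).r (F.q j).τ (b + t * I)).re := by
      rw [wl_re, re0]
      exact (hb₀ b hbt.1).2 j
    have hi : 1 ≤ (wl (F.q j).r (F.q j).τ (b + t * I)).im := by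
      rw [wl_im, im0]
      exact (ht₀ t hbt.2).2 j
    rw [(F.q j).L.series _ (by linarith) (by linarith), norm_mul, norm_prod]
    apply mul_le_mul (h _ hr hi) _ (by positivity) (norm_nonneg _)
    have e : ((1 : ℝ) / 2) ^ (F.q j).L.n = ∏ _k : Fin (F.q j).L.n, (1 : ℝ) / 2 := by simp
    rw [e]
    exact Finset.prod_le_prod (fun _ _ => by norm_num) fun k _ =>
      ser_ge _ ((F.q j).L.h_zero k) ((F.q j).L.h_one k) ((F.q j).L.h_mul k)
        ((F.q j).L.h_le k) _ hr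
  obtain ⟨c1, hc1, h1⟩ := prod_lower Finset.univ P
    (fun i b t => (F.p i).L.den (wl (F.p i).r (F.p i).τ (b + t * I))) H1
  obtain ⟨c2, hc2, h2⟩ := prod_lower Finset.univ P
    (fun j b t => (F.q j).L.num (wl (F.q j).r (F.q j).τ (b + t * I))) H2
  refine ⟨b₀, c1 * c2, t₀, by positivity, fun b hb t ht => ?_⟩
  unfold Fam.M
  rw [norm_mul]
  exact mul_le_mul (h1 b t ⟨hb, ht⟩) (h2 b t ⟨hb, ht⟩) hc2.le (norm_nonneg _)

end Pool.Agent.H62.DL
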