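import Pool.Agent.H25.DL.Targets

/-!
# (FQ) the functional equation of the quotient
-/

set_option autoImplicit false

open Complex MeasureTheory Set

namespace Pool.Agent.H62.DL

open Pool.Agent.H25.DL

lemma wl_conj (r τ : ℝ) (s : ℂ) :
    1 - (starRingEnd ℂ) (wl r τ s) = wl r τ (1 - (starRingEnd ℂ) s) := by
  have h2 : (starRingEnd ℂ) (2 : ℂ) = 2 := by
    have := Complex.conj_ofReal (2 : ℝ)
    simpa using this
  unfold wl
  simp only [map_add, map_sub, map_mul, map_one, map_div₀, conj_ofReal, conj_I, h2]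
  ring

lemma wl_im (r τ : ℝ) (s : ℂ) : (wl r τ s).im = r * s.im + τ := by
  unfold wl
  simp

lemma wl_re (r τ : ℝ) (s : ℂ) : (wl r τ s).re = 1 / 2 + r * (s.re - 1 / 2) := by
  unfold wl
  simp

lemma ev_im (r τ : ℝ) (hr : 0 < r) : ∀ᶠ t in Filter.atTop, (1 : ℝ) ≤ r * t + τ := by
  filter_upwards [Filter.eventually_ge_atTop ((1 - τ) / r)] with t ht
  rw [div_le_iff₀ hr] at ht
  linarith

/-- heights at which all members have imaginary part at least `1` -/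
lemma exists_t0 (F : Fam) : ∃ t₀ : ℝ, 1 ≤ t₀ ∧ ∀ t : ℝ, t₀ ≤ t →
    (∀ i, 1 ≤ (F.p i).r * t + (F.p i).τ) ∧ (∀ j, 1 ≤ (F.q j).r * t + (F.q j).τ) := by
  have h1 : ∀ᶠ t in Filter.atTop, ∀ i, 1 ≤ (F.p i).r * t + (F.p i).τ :=
    Filter.eventually_all.2 fun i => ev_im _ _ (F.p i).r_pos
  have h2 : ∀ᶠ t in Filter.atTop, ∀ j, 1 ≤ (F.q j).r * t + (F.q j).τ :=
    Filter.eventually_all.2 fun j => ev_im _ _ (F.q j).r_pos
  obtain ⟨t₀, ht₀⟩ := Filter.eventually_atTop.1 (h1.and h2)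
  exact ⟨max 1 t₀, le_max_left _ _, fun t ht => ht₀ t (le_trans (le_max_right _ _) ht)⟩

lemma fe' (a : DLF) (s : ℂ) (h : 0 < (wl a.r a.τ s).im) :
    a.L.num (wl a.r a.τ s) * a.L.y (wl a.r a.τ s) *
      (starRingEnd ℂ) (a.L.den (wl a.r a.τ (1 - (starRingEnd ℂ) s))) =
    (starRingEnd ℂ) (a.L.num (wl a.r a.τ (1 - (starRingEnd ℂ) s))) * a.L.den (wl a.r a.τ s) := by
  have := a.L.fe (wl a.r a.τ s) h
  rw [wl_conj] at this
  exact this

theorem fq (h : T_YN) : T_FQ := by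
  intro F
  obtain ⟨t₀, h1, ht₀⟩ := exists_t0 F
  refine ⟨t₀, fun s hs => ?_⟩
  have hp : ∀ i, 0 < (wl (F.p i).r (F.p i).τ s).im := by
    intro i
    rw [wl_im]
    linarith [(ht₀ s.im hs).1 i]
  have hq : ∀ j, 0 < (wl (F.q j).r (F.q j).τ s).im := by
    intro j
    rw [wl_im]
    linarith [(ht₀ s.im hs).2 j]
  unfold Fam.N Fam.M Fam.Y
  simp only [map_mul, map_prod]
  have hy : ∏ j, (F.q j).L.y (wl (F.q j).r (F.q j).τ s) ≠ 0 :=
    Finset.prod_ne_zero_iff.2 fun j _ => (h _ _ (hq j)).2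
  have e1 : (∏ i, (F.p i).L.num (wl (F.p i).r (F.p i).τ s)) *
      (∏ i, (F.p i).L.y (wl (F.p i).r (F.p i).τ s)) *
      (∏ i, (starRingEnd ℂ) ((F.p i).L.den (wl (F.p i).r (F.p i).τ (1 - (starRingEnd ℂ) s)))) =
      (∏ i, (starRingEnd ℂ) ((F.p i).L.num (wl (F.p i).r (F.p i).τ (1 - (starRingEnd ℂ) s)))) *
      ∏ i, (F.p i).L.den (wl (F.p i).r (F.p i).τ s) := by
    rw [← Finset.prod_mul_distrib, ← Finset.prod_mul_distrib, ← Finset.prod_mul_distrib]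
    exact Finset.prod_congr rfl fun i _ => fe' _ _ (hp i)
  have e2 : (∏ j, (F.q j).L.num (wl (F.q j).r (F.q j).τ s)) *
      (∏ j, (F.q j).L.y (wl (F.q j).r (F.q j).τ s)) *
      (∏ j, (starRingEnd ℂ) ((F.q j).L.den (wl (F.q j).r (F.q j).τ (1 - (starRingEnd ℂ) s)))) =
      (∏ j, (starRingEnd ℂ) ((F.q j).L.num (wl (F.q j).r (F.q j).τ (1 - (starRingEnd ℂ) s)))) *
      ∏ j, (F.q j).L.den (wl (F.q j).r (F.q j).τ s) := by
    rw [← Finset.prod_mul_distrib, ← Finset.prod_mul_distrib, ← Finset.prod_mul_distrib]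
    exact Finset.prod_congr rfl fun j _ => fe' _ _ (hq j)
  field_simp
  generalize (∏ i, (F.p i).L.num (wl (F.p i).r (F.p i).τ s)) = a1 at *
  generalize (∏ i, (F.p i).L.y (wl (F.p i).r (F.p i).τ s)) = a2 at *
  generalize (∏ i, (starRingEnd ℂ) ((F.p i).L.den (wl (F.p i).r (F.p i).τ
    (1 - (starRingEnd ℂ) s)))) = a3 at *
  generalize (∏ i, (starRingEnd ℂ) ((F.p i).L.num (wl (F.p i).r (F.p i).τ
    (1 - (starRingEnd ℂ) s)))) = a4 at *
  generalize (∏ i, (F.p i).L.den (wl (F.p i).r (F.p i).τ s)) = a5 at *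
  generalize (∏ j, (F.q j).L.num (wl (F.q j).r (F.q j).τ s)) = b1 at *
  generalize (∏ j, (F.q j).L.y (wl (F.q j).r (F.q j).τ s)) = b2 at *
  generalize (∏ j, (starRingEnd ℂ) ((F.q j).L.den (wl (F.q j).r (F.q j).τ
    (1 - (starRingEnd ℂ) s)))) = b3 at *
  generalize (∏ j, (starRingEnd ℂ) ((F.q j).L.num (wl (F.q j).r (F.q j).τ
    (1 - (starRingEnd ℂ) s)))) = b4 at *
  generalize (∏ j, (F.q j).L.den (wl (F.q j).r (F.q j).τ s)) = b5 at *
  linear_combination (b4 * b5) * e1 - (a4 * a5) * e2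

end Pool.Agent.H62.DL
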